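import Mathlib
import Pool.Agent.Y840.PT.Dense

set_option autoImplicit false

/-!
# Dense sets of prime tuples contain narrow progressions

`one_U` is `Pool.Agent.Y840.PT.one_tuple` for subsets whose size is compared with the expected number of tuples.
-/

namespace Pool.Agent.P8H13.CA

open Finset Filter Topology
open Pool.Agent.H387R2.Uni (CT locT nuT CT_hasProd)
open Pool.Agent.Y840.PT

/-- every set of `n ≤ x` with `n + t` prime for all `t ∈ T`, of the expected order of magnitude, contains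
progressions with small differences -/
theorem one_U (l m : ℕ) (ρ : ℝ) (hρ : 0 < ρ) : ∃ B : ℕ, ∃ x₀ : ℝ,
    ∀ x : ℝ, x₀ ≤ x → ∀ T : Finset ℕ, T.card = l → 0 < CT T →
    ∀ U ⊆ Pts x T, ρ * (CT T * (x / Real.log x ^ l)) ≤ (U.card : ℝ) → AP m (Real.log x ^ B) U := by
  obtain ⟨c, hc, hCT⟩ := CT_ge l
  obtain ⟨B, X₀, h⟩ := sh_gen m l (1 / 2) (ρ / 2 ^ (l + 1)) (by norm_num) (by positivity)
  obtain ⟨x₁, hx₁⟩ := eventually_atTop.1 (sqrt_small l (ρ / 2 * c) (by positivity))
  refine ⟨B, max (X₀ + 1) (max x₁ 16), fun x hx T hT hpos U hU hcard => ?_⟩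
  have hxX : (X₀ : ℝ) + 1 ≤ x := (le_max_left _ _).trans hx
  have hx1 : x₁ ≤ x := ((le_max_left _ _).trans (le_max_right _ _)).trans hx
  have hx16 : 16 ≤ x := ((le_max_right _ _).trans (le_max_right _ _)).trans hx
  have hx0 : 0 < x := by linarith
  set X : ℕ := ⌊x⌋₊ with hX
  have hXx : (X : ℝ) ≤ x := Nat.floor_le hx0.le
  have hxX' : x < X + 1 := Nat.lt_floor_add_one x
  have hX15 : (15 : ℝ) < X := by linarith
  have hX0 : (0 : ℝ) < X := by linarith
  have hXX₀ : X₀ ≤ X := by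
    have : (X₀ : ℝ) < X + 1 := by linarith
    have : X₀ < X + 1 := by exact_mod_cast this
    omega
  have hlogX : 0 < Real.log X := Real.log_pos (by linarith)
  have hlogx : 0 < Real.log x := Real.log_pos (by linarith)
  have hlogle : Real.log X ≤ Real.log x := Real.log_le_log hX0 hXx
  have hlog2 : Real.log x ≤ 2 * Real.log X := by
    have h1 : x ≤ (X : ℝ) ^ 2 := by nlinarith
    calc Real.log x ≤ Real.log ((X : ℝ) ^ 2) := Real.log_le_log hx0 h1
      _ = 2 * Real.log X := by rw [Real.log_pow]; norm_num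
  set U' := U.filter (fun n : ℕ => (X : ℝ) ^ (1 / 2 : ℝ) < (n : ℝ)) with hU'
  have hsub : U' ⊆ U := filter_subset _ _
  have hUmem : ∀ n ∈ U, (1 ≤ n ∧ n ≤ X) ∧ ∀ t ∈ T, (n + t).Prime := by
    intro n hn
    have := hU hn
    unfold Pts at this
    rwa [mem_filter, mem_Icc] at this
  -- few elements are removed
  have hrem : (U.card : ℝ) - √x ≤ U'.card := by
    have h1 : U.card = U'.card + (U.filter (fun n : ℕ => ¬ (X : ℝ) ^ (1 / 2 : ℝ) < (n : ℝ))).card := by
      rw [hU', card_filter_add_card_filter_not]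
    have h2 : ((U.filter (fun n : ℕ => ¬ (X : ℝ) ^ (1 / 2 : ℝ) < (n : ℝ))).card : ℝ) ≤ √x := by
      have h3 : U.filter (fun n : ℕ => ¬ (X : ℝ) ^ (1 / 2 : ℝ) < (n : ℝ)) ⊆ Icc 1 ⌊√x⌋₊ := by
        intro n hn
        rw [mem_filter] at hn
        rw [mem_Icc]
        refine ⟨(hUmem n hn.1).1.1, Nat.le_floor ?_⟩
        have h4 := not_lt.1 hn.2
        rw [← Real.sqrt_eq_rpow] at h4
        exact h4.trans (Real.sqrt_le_sqrt hXx)
      have h5 := card_le_card h3
      rw [Nat.card_Icc] at h5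
      have h6 : ((U.filter (fun n : ℕ => ¬ (X : ℝ) ^ (1 / 2 : ℝ) < (n : ℝ))).card : ℝ) ≤ (⌊√x⌋₊ : ℝ) := by
        exact_mod_cast (by omega : (U.filter (fun n : ℕ => ¬ (X : ℝ) ^ (1 / 2 : ℝ) < (n : ℝ))).card ≤ ⌊√x⌋₊)
      exact h6.trans (Nat.floor_le (Real.sqrt_nonneg x))
    rw [h1]
    push_cast
    linarith
  have hsq := hx₁ x hx1
  have hCTc := hCT T hT hpos
  have hfrac : (X : ℝ) / Real.log X ^ l ≤ 2 ^ l * (x / Real.log x ^ l) := by
    rw [← mul_div_assoc, div_le_div_iff₀ (by positivity) (by positivity)]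
    have h1 : Real.log x ^ l ≤ (2 * Real.log X) ^ l := pow_le_pow_left₀ hlogx.le hlog2 l
    rw [mul_pow] at h1
    calc (X : ℝ) * Real.log x ^ l ≤ x * (2 ^ l * Real.log X ^ l) := by gcongr
      _ = _ := by ring
  have hAP : AP m (Real.log X ^ B) U' := by
    refine h X 0 hXX₀ T hT hpos U' ?_ ?_ ?_
    · intro n hn
      have := hUmem n (hsub hn)
      rw [mem_Ioc]
      omega
    · intro n hn t ht p hp hd
      have h1 := (hUmem n (hsub hn)).2 t ht
      have h2 := (Nat.prime_dvd_prime_iff_eq hp h1).1 hd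
      rw [hU', mem_filter] at hn
      rw [h2]
      push_cast
      have h3 : (0 : ℝ) ≤ t := Nat.cast_nonneg t
      linarith [hn.2]
    · refine le_trans ?_ hrem
      have h2 : √x ≤ ρ / 2 * (CT T * (x / Real.log x ^ l)) := by
        refine hsq.trans ?_
        rw [mul_assoc]
        gcongr
      have h3 : ρ / 2 ^ (l + 1) * (CT T * ((X : ℝ) / Real.log X ^ l)) ≤
          ρ / 2 * (CT T * (x / Real.log x ^ l)) := by
        calc ρ / 2 ^ (l + 1) * (CT T * ((X : ℝ) / Real.log X ^ l))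
            ≤ ρ / 2 ^ (l + 1) * (CT T * (2 ^ l * (x / Real.log x ^ l))) := by gcongr
          _ = _ := by rw [pow_succ]; field_simp
      have h4 : ρ * (CT T * (x / Real.log x ^ l)) =
          ρ / 2 * (CT T * (x / Real.log x ^ l)) + ρ / 2 * (CT T * (x / Real.log x ^ l)) := by
        ring
      linarith
  exact (hAP.sub hsub).mono (pow_le_pow_left₀ hlogX.le hlogle B)

end Pool.Agent.P8H13.CA
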